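import Pool.Agent.Q28.CT.Gen2
import Pool.Agent.Q28.CS.Core3

/-!
# The relations on average over the primes
-/

set_option autoImplicit false
set_option linter.unusedSectionVars false

namespace Pool.Agent.Q28.CT

open Finset Pool.Agent.Q28.CS

/-- the number of the primes `q ≥ Q` dividing `a ^ t - b ^ t` -/
lemma count_le {𝒬 : Finset ℕ} {Q : ℕ} (hQ : 2 ≤ Q) (h𝒬 : ∀ q ∈ 𝒬, q.Prime ∧ Q ≤ q) {a b t : ℕ}
    (hab : a ≠ b) (ht : 1 ≤ t) (ha : a ≤ Q ^ 4) (hb : b ≤ Q ^ 4) :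
    #(𝒬.filter (fun q => a ^ t ≡ b ^ t [MOD q])) ≤ 4 * t := by
  classical
  set S := 𝒬.filter (fun q => a ^ t ≡ b ^ t [MOD q]) with hS
  set D : ℕ := ((b ^ t : ℕ) - (a ^ t : ℕ) : ℤ).natAbs with hD
  have hD0 : 0 < D := by
    rw [hD, Int.natAbs_pos, sub_ne_zero]
    intro h
    apply hab
    have h1 : b ^ t = a ^ t := by exact_mod_cast h
    exact (Nat.pow_left_injective (by omega : t ≠ 0) h1).symm
  have hDle : D ≤ Q ^ (4 * t) := by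
    have h1 : a ^ t ≤ Q ^ (4 * t) := by
      rw [pow_mul]
      exact Nat.pow_le_pow_left ha t
    have h2 : b ^ t ≤ Q ^ (4 * t) := by
      rw [pow_mul]
      exact Nat.pow_le_pow_left hb t
    omega
  have hdvd : ∏ p ∈ S, p ∣ D := by
    refine Finset.prod_primes_dvd D (fun p hp => ?_) fun p hp => ?_
    · exact (h𝒬 p (mem_filter.1 hp).1).1.prime
    · have h1 := (mem_filter.1 hp).2
      rw [Nat.modEq_iff_dvd] at h1
      rw [hD]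
      exact Int.natCast_dvd.1 h1
  have h1 : Q ^ #S ≤ ∏ p ∈ S, p := by
    refine Finset.pow_card_le_prod _ _ _ fun p hp => ?_
    exact (h𝒬 p (mem_filter.1 hp).1).2
  have h2 : Q ^ #S ≤ Q ^ (4 * t) := h1.trans ((Nat.le_of_dvd hD0 hdvd).trans hDle)
  exact (Nat.pow_le_pow_iff_right (by omega)).1 h2

/-- the sum over the pairs and the exponents -/
noncomputable def SS (T X M : ℕ) (η : ℝ) (q : ℕ) : ℝ :=
  ∑ v ∈ (Icc 1 X ×ˢ Icc 1 M).filter (fun v => v.1 ≠ v.2), ∑ t ∈ Icc 1 T,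
    if v.1 ^ t ≡ v.2 ^ t [MOD q] then ((v.1 : ℝ) * v.2) ^ (η - 1 / 2) else 0

lemma SS_nonneg (T X M : ℕ) (η : ℝ) (q : ℕ) : 0 ≤ SS T X M η q := by
  unfold SS
  refine sum_nonneg fun v _ => sum_nonneg fun t _ => ?_
  split_ifs
  · positivity
  · exact le_rfl

lemma RS_le {q : ℕ} [NeZero q] {G : Subgroup (ZMod q)ˣ} {T X M : ℕ} {η : ℝ} (hT : Nat.card G ≤ T) :
    RS G X M η ≤ SS T X M η q := by
  classical
  unfold RS SS
  have h1 : (Icc 1 X ×ˢ Icc 1 M).filter (fun v => v.1 ≠ v.2 ∧ Rel G v.1 v.2) =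
      ((Icc 1 X ×ˢ Icc 1 M).filter (fun v => v.1 ≠ v.2)).filter (fun v => Rel G v.1 v.2) := by
    rw [filter_filter]
  rw [h1, sum_filter]
  refine sum_le_sum fun v _ => ?_
  have h0 : ∀ t ∈ Icc 1 T, (0 : ℝ) ≤
      if v.1 ^ t ≡ v.2 ^ t [MOD q] then ((v.1 : ℝ) * v.2) ^ (η - 1 / 2) else 0 := by
    intro t _
    split_ifs
    · positivity
    · exact le_rfl
  split_ifs with hR
  · obtain ⟨g, hg, e⟩ := hR
    have hk : 1 ≤ Nat.card G := Nat.card_pos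
    have h2 : g ^ Nat.card G = 1 := by
      have h3 : (⟨g, hg⟩ : G) ^ Nat.card G = 1 := pow_card_eq_one'
      have h4 : ((⟨g, hg⟩ ^ Nat.card G : G) : (ZMod q)ˣ) = ((1 : G) : (ZMod q)ˣ) := by rw [h3]
      rw [Subgroup.coe_pow, Subgroup.coe_one] at h4
      exact h4
    have h3 : v.1 ^ Nat.card G ≡ v.2 ^ Nat.card G [MOD q] := by
      rw [← ZMod.natCast_eq_natCast_iff]
      push_cast
      rw [e, mul_pow, ← Units.val_pow_eq_pow_val, h2, Units.val_one, one_mul]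
    refine le_trans (le_of_eq ?_) (single_le_sum h0 (mem_Icc.2 ⟨hk, hT⟩))
    rw [if_pos h3]
  · exact sum_nonneg h0

lemma sum_rpow_le {X : ℕ} {η : ℝ} (hη : 0 ≤ η) :
    ∑ a ∈ Icc 1 X, (a : ℝ) ^ (η - 1 / 2) ≤ (X : ℝ) ^ η * (2 * √X) := by
  calc ∑ a ∈ Icc 1 X, (a : ℝ) ^ (η - 1 / 2) ≤ ∑ a ∈ Icc 1 X, (X : ℝ) ^ η * (√(a : ℝ))⁻¹ := by
        refine sum_le_sum fun a ha => ?_
        rw [mem_Icc] at ha
        have h0 : (0 : ℝ) < a := by exact_mod_cast ha.1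
        rw [sub_eq_add_neg, Real.rpow_add h0, Real.rpow_neg h0.le, Real.sqrt_eq_rpow]
        refine mul_le_mul_of_nonneg_right ?_ (by positivity)
        exact Real.rpow_le_rpow h0.le (by exact_mod_cast ha.2) hη
    _ = (X : ℝ) ^ η * ∑ a ∈ Icc 1 X, (√(a : ℝ))⁻¹ := by rw [mul_sum]
    _ ≤ _ := mul_le_mul_of_nonneg_left (sum_inv_sqrt X) (by positivity)

/-- **The relations on average.** -/
theorem avg {𝒬 : Finset ℕ} {Q T X M : ℕ} (hQ : 2 ≤ Q) (h𝒬 : ∀ q ∈ 𝒬, q.Prime ∧ Q ≤ q) {η : ℝ}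
    (hη : 0 ≤ η) (hX : X ≤ Q ^ 4) (hM : M ≤ Q ^ 4) :
    ∑ q ∈ 𝒬, SS T X M η q ≤ 16 * (T : ℝ) ^ 2 * ((X : ℝ) * M) ^ η * √(X * M) := by
  classical
  have h1 : ∑ q ∈ 𝒬, SS T X M η q = ∑ v ∈ (Icc 1 X ×ˢ Icc 1 M).filter (fun v => v.1 ≠ v.2),
      ∑ t ∈ Icc 1 T, ∑ q ∈ 𝒬,
        if v.1 ^ t ≡ v.2 ^ t [MOD q] then ((v.1 : ℝ) * v.2) ^ (η - 1 / 2) else 0 := by
    unfold SS
    rw [sum_comm]
    refine sum_congr rfl fun v _ => ?_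
    rw [sum_comm]
  have h2 : ∀ v ∈ (Icc 1 X ×ˢ Icc 1 M).filter (fun v => v.1 ≠ v.2), (∑ t ∈ Icc 1 T, ∑ q ∈ 𝒬,
        if v.1 ^ t ≡ v.2 ^ t [MOD q] then ((v.1 : ℝ) * v.2) ^ (η - 1 / 2) else 0) ≤
      4 * (T : ℝ) ^ 2 * ((v.1 : ℝ) ^ (η - 1 / 2) * (v.2 : ℝ) ^ (η - 1 / 2)) := by
    intro v hv
    rw [mem_filter, mem_product, mem_Icc, mem_Icc] at hv
    have h3 : ∀ t ∈ Icc 1 T, (∑ q ∈ 𝒬,
        if v.1 ^ t ≡ v.2 ^ t [MOD q] then ((v.1 : ℝ) * v.2) ^ (η - 1 / 2) else 0) ≤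
        4 * T * ((v.1 : ℝ) ^ (η - 1 / 2) * (v.2 : ℝ) ^ (η - 1 / 2)) := by
      intro t ht
      rw [mem_Icc] at ht
      rw [← sum_filter, sum_const, nsmul_eq_mul, Real.mul_rpow (Nat.cast_nonneg _) (Nat.cast_nonneg _)]
      refine mul_le_mul_of_nonneg_right ?_ (by positivity)
      have h4 := count_le hQ h𝒬 hv.2 ht.1 (hv.1.1.2.trans hX) (hv.1.2.2.trans hM)
      have h5 : #(𝒬.filter (fun q => v.1 ^ t ≡ v.2 ^ t [MOD q])) ≤ 4 * T := h4.trans (by omega)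
      exact_mod_cast h5
    refine (sum_le_sum h3).trans (le_of_eq ?_)
    rw [sum_const, nsmul_eq_mul, Nat.card_Icc, Nat.add_sub_cancel]
    ring
  rw [h1]
  refine (sum_le_sum h2).trans ?_
  rw [← mul_sum]
  have h6 : ∑ v ∈ (Icc 1 X ×ˢ Icc 1 M).filter (fun v => v.1 ≠ v.2),
      ((v.1 : ℝ) ^ (η - 1 / 2) * (v.2 : ℝ) ^ (η - 1 / 2)) ≤
      ((X : ℝ) ^ η * (2 * √X)) * ((M : ℝ) ^ η * (2 * √M)) := by
    refine (sum_le_sum_of_subset_of_nonneg (filter_subset _ _) fun v _ _ => by positivity).trans ?_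
    have e : ∑ v ∈ Icc 1 X ×ˢ Icc 1 M, ((v.1 : ℝ) ^ (η - 1 / 2) * (v.2 : ℝ) ^ (η - 1 / 2)) =
        (∑ a ∈ Icc 1 X, (a : ℝ) ^ (η - 1 / 2)) * ∑ b ∈ Icc 1 M, (b : ℝ) ^ (η - 1 / 2) := by
      rw [sum_mul_sum, sum_product]
    rw [e]
    exact mul_le_mul (sum_rpow_le hη) (sum_rpow_le hη) (sum_nonneg fun _ _ => by positivity) (by positivity)
  refine (mul_le_mul_of_nonneg_left h6 (by positivity)).trans (le_of_eq ?_)
  rw [Real.mul_rpow (Nat.cast_nonneg _) (Nat.cast_nonneg _), Real.sqrt_mul (Nat.cast_nonneg _)]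
  ring

/-- the number of the exceptional primes -/
theorem exc {𝒬 : Finset ℕ} {Q T X M : ℕ} (hQ : 2 ≤ Q) (h𝒬 : ∀ q ∈ 𝒬, q.Prime ∧ Q ≤ q) {η : ℝ}
    (hη : 0 ≤ η) (hX : X ≤ Q ^ 4) (hM : M ≤ Q ^ 4) :
    ∃ 𝓔 : Finset ℕ, (#𝓔 : ℝ) ≤ 256 * (T : ℝ) ^ 2 * ((X : ℝ) * M) ^ η * √(X * M) ∧
      ∀ q ∈ 𝒬, q ∉ 𝓔 → SS T X M η q ≤ 1 / 16 := by
  classical
  refine ⟨𝒬.filter (fun q => 1 / 16 < SS T X M η q), ?_, fun q hq hqE => ?_⟩
  · have h1 := avg (T := T) hQ h𝒬 hη hX hM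
    have h2 : ∑ _q ∈ 𝒬.filter (fun q => 1 / 16 < SS T X M η q), (1 / 16 : ℝ) ≤ ∑ q ∈ 𝒬, SS T X M η q := by
      refine (sum_le_sum fun q hq => (mem_filter.1 hq).2.le).trans ?_
      exact sum_le_sum_of_subset_of_nonneg (filter_subset _ _) fun q _ _ => SS_nonneg _ _ _ _ _
    rw [sum_const, nsmul_eq_mul] at h2
    linarith
  · by_contra hcon
    exact hqE (mem_filter.2 ⟨hq, not_le.1 hcon⟩)

end Pool.Agent.Q28.CT
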