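import Pool.Agent.Q28.CT.Gen3
import Pool.Agent.Q28.CT.Avg
import Pool.Agent.Q28.CS.Fin

/-!
# Large central values in every coset, for almost all primes
-/

set_option autoImplicit false
set_option linter.unusedSectionVars false

namespace Pool.Agent.Q28.CT

open Finset Filter Pool.Agent.Q28.CS

/-- the length of the sums -/
lemma Nex {q k₀ M : ℕ} {Lq x : ℝ} (hq : 1 < q) (hk : 1 ≤ k₀) (hM : 1 ≤ M) (hLq : Lq = Real.log q)
    (hL1 : 100 ≤ Lq) (hkx : Real.log k₀ ≤ x) (hlogM : Real.log M ≤ Lq / 100)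
    (h6 : x + 2 * √Lq + 6 ≤ 48 / 100 * Lq) :
    ∃ N : ℕ, q ≤ N ∧ 4 * 4 ^ #(1 : ℕ).primeFactors * q * Real.log q ^ 2 ≤ N ∧
      (k₀ : ℝ) * M * (6 * √N / q) ≤ 1 / 16 := by
  have hq0 : (0 : ℝ) < q := by exact_mod_cast (by omega : 0 < q)
  have hk0 : (0 : ℝ) < k₀ := by exact_mod_cast hk
  have hM0 : (0 : ℝ) < M := by exact_mod_cast hM
  have hL0 : 0 < Lq := by linarith
  have e1 : #(1 : ℕ).primeFactors = 0 := by simp
  rw [e1, pow_zero, mul_one, ← hLq]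
  set N := ⌈4 * (q : ℝ) * Lq ^ 2⌉₊ with hN
  have hN' : 4 * (q : ℝ) * Lq ^ 2 ≤ N := Nat.le_ceil _
  have hqN : (q : ℝ) ≤ 4 * q * Lq ^ 2 := by
    have h1 : (1 : ℝ) ≤ 4 * Lq ^ 2 := by nlinarith
    calc (q : ℝ) = q * 1 := (mul_one _).symm
      _ ≤ q * (4 * Lq ^ 2) := mul_le_mul_of_nonneg_left h1 hq0.le
      _ = _ := by ring
  have hsqN : √(N : ℝ) ≤ 3 * √q * Lq := by
    have h1 : (N : ℝ) ≤ 9 * q * Lq ^ 2 := by
      have h2 := Nat.ceil_lt_add_one (show 0 ≤ 4 * (q : ℝ) * Lq ^ 2 by positivity)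
      rw [← hN] at h2
      have h3 : (1 : ℝ) ≤ q := by exact_mod_cast hq.le
      linarith
    rw [show 3 * √(q : ℝ) * Lq = √((3 * √(q : ℝ) * Lq) ^ 2) by rw [Real.sqrt_sq (by positivity)]]
    refine Real.sqrt_le_sqrt (h1.trans (le_of_eq ?_))
    rw [mul_pow, mul_pow, Real.sq_sqrt hq0.le]
    ring
  refine ⟨N, by exact_mod_cast hqN.trans hN', hN', ?_⟩
  have h1 : (k₀ : ℝ) * M * (6 * √N / q) ≤ 18 * k₀ * M * Lq * (√q / q) := by
    calc (k₀ : ℝ) * M * (6 * √N / q) = 6 * (k₀ * M) / q * √N := by ring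
      _ ≤ 6 * (k₀ * M) / q * (3 * √q * Lq) := mul_le_mul_of_nonneg_left hsqN (by positivity)
      _ = _ := by ring
  refine h1.trans ?_
  have h2' : √(q : ℝ) / q = Real.exp (-(Lq / 2)) := by
    rw [Real.sqrt_div_self', Real.sqrt_eq_rpow, Real.rpow_def_of_pos hq0, one_div, ← Real.exp_neg]
    congr 1
    rw [← hLq]
    ring
  have h3 : 18 * (k₀ : ℝ) * M * Lq ≤ Real.exp (3 + x + Lq / 100 + 2 * √Lq) := by
    rw [← Real.log_le_iff_le_exp (by positivity), Real.log_mul (by positivity) (by positivity),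
      Real.log_mul (by positivity) (by positivity), Real.log_mul (by positivity) (by positivity)]
    have h4 := log18
    have h5 := log_le_sqrt hL0
    linarith
  have h4 : (16 : ℝ) ≤ Real.exp 3 := by
    rw [← Real.log_le_iff_le_exp (by norm_num)]
    exact log16
  rw [h2']
  calc 18 * (k₀ : ℝ) * M * Lq * Real.exp (-(Lq / 2)) ≤
      Real.exp (3 + x + Lq / 100 + 2 * √Lq) * Real.exp (-(Lq / 2)) :=
        mul_le_mul_of_nonneg_right h3 (Real.exp_pos _).le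
    _ = Real.exp (3 + x + Lq / 100 + 2 * √Lq + -(Lq / 2)) := by rw [← Real.exp_add]
    _ ≤ Real.exp (-3) := by
        refine Real.exp_le_exp.2 ?_
        linarith
    _ ≤ 1 / 16 := by
        rw [Real.exp_neg, one_div]
        exact inv_anti₀ (by norm_num) h4

/-- one prime -/
lemma good_one {q : ℕ} [NeZero q] (hq : q.Prime) (hq2 : q ≠ 2) {T M I : ℕ} {P : Finset ℕ}
    {l η s₁ x y V : ℝ} (hη : 0 ≤ η) (hSS : SS T ((16 * T * M) ^ 2 * M) M η q ≤ 1 / 16)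
    (hT1 : 1 ≤ T) (hM1 : 1 ≤ M) (hP : ∀ p ∈ P, p.Prime) (hPq : ∀ p ∈ P, p < q)
    (hMM : ∀ m ∈ MM P I, m ≤ M) (hlp : ∀ p ∈ P, l ^ 2 ≤ p) (hlP : ∀ p ∈ P, 1 + l ≤ (p : ℝ) ^ η)
    (hsum1 : ∑ p ∈ P, 1 / (p : ℝ) ≤ s₁) (hs2 : 1 / 2 ≤ ∑ p ∈ P, 1 / (p : ℝ)) (hl1 : 1 ≤ l)
    (hlI2 : 8 * l ^ 2 * s₁ ≤ I) (hI4 : 4 ≤ I) (hlogM : Real.log M ≤ Real.log q / 100)
    (hL1 : 100 ≤ Real.log q) (hKq : (16 * T * M) ^ 2 ≤ q) (hTx : Real.log T ≤ x)
    (h6 : x + 2 * √(Real.log q) + 6 ≤ 48 / 100 * Real.log q) (hy : 2 ≤ y) (hV0 : 0 ≤ V)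
    (hV : V ≤ Real.exp (3 * y)) (hyl : 4 * y ≤ l / 8) (H : Subgroup (DirichletCharacter ℂ q))
    (hH : H.index ≤ T) (ψ : DirichletCharacter ℂ q) :
    ∃ χ : DirichletCharacter ℂ q, ψ⁻¹ * χ ∈ H ∧ χ ≠ 1 ∧ V ≤ ‖χ.LFunction (1 / 2)‖ := by
  classical
  obtain ⟨𝓗, hmH⟩ : ∃ 𝓗 : Finset (DirichletCharacter ℂ q), ∀ χ, χ ∈ 𝓗 ↔ χ ∈ H :=
    ⟨univ.filter (· ∈ H), fun χ => by simp⟩
  obtain ⟨𝓕, hmF⟩ : ∃ 𝓕 : Finset (DirichletCharacter ℂ q), ∀ χ, χ ∈ 𝓕 ↔ ψ⁻¹ * χ ∈ H :=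
    ⟨univ.filter (fun χ => ψ⁻¹ * χ ∈ H), fun χ => by simp⟩
  have hidx := index_eq H hmH
  rw [← hidx] at hH
  have hk1 : 1 ≤ Nat.card (orth H) := Nat.card_pos
  have hT0 : (0 : ℝ) < T := by exact_mod_cast hT1
  have hM0 : (0 : ℝ) < M := by exact_mod_cast hM1
  have hk0 : (0 : ℝ) < Nat.card (orth H) := by exact_mod_cast hk1
  have hkT : (Nat.card (orth H) : ℝ) ≤ T := by exact_mod_cast hH
  obtain ⟨N, hqN, hN', hN1⟩ := Nex hq.one_lt hk1 hM1 rfl hL1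
    ((Real.log_le_log hk0 hkT).trans hTx) hlogM h6
  obtain ⟨K, hK⟩ : ∃ K, K = (16 * T * M) ^ 2 := ⟨_, rfl⟩
  rw [← hK] at hSS hKq
  have hTM1 : 1 ≤ 16 * T * M := Nat.mul_pos (by omega) hM1
  have hK1 : 1 ≤ K := by
    rw [hK]
    exact Nat.one_le_pow _ _ hTM1
  have hKM : M ≤ K := by
    calc M = 1 * M := (one_mul M).symm
      _ ≤ (16 * T) * M := Nat.mul_le_mul_right _ (by omega)
      _ = (16 * T * M) ^ 1 := (pow_one _).symm
      _ ≤ (16 * T * M) ^ 2 := Nat.pow_le_pow_right hTM1 (by norm_num)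
      _ = K := hK.symm
  have hcop : ∀ m ∈ MM P I, m ≤ M ∧ m.Coprime 1 ∧ m.Coprime q := by
    intro m hm
    refine ⟨hMM m hm, Nat.coprime_one_right m, MM_coprime hP (fun p hp hd => ?_) hm⟩
    have h1 := (Nat.prime_dvd_prime_iff_eq (hP p hp) hq).1 hd
    have h2 := hPq p hp
    omega
  by_contra hcon
  push Not at hcon
  have hmain := main_ineq (P := P) (I := I) (l := l) hq hq2 hmH hmF (E := 1) one_ne_zero hη
    ((RS_le hH).trans hSS) (by norm_num) hK1 hKM (hKq.trans hqN) hN' hP (by linarith only [hl1])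
    hlP hcop (V := V) (fun χ hχ hχ1 => (hcon χ ((hmF χ).1 hχ) hχ1).le) hV0
  rw [Nat.primeFactors_one, sum_empty, Real.exp_zero, mul_one] at hmain
  have hgain := gain (P := P) (I := I) (l := l) hP hl1 hlp (s₁ := s₁) hsum1 hlI2 hI4
  have hKk : (Nat.card (orth H) : ℝ) * M * (√(K : ℝ))⁻¹ ≤ 1 / 16 := by
    have hsK : (√(K : ℝ))⁻¹ = (16 * T * M : ℝ)⁻¹ := by
      rw [hK]
      push_cast
      rw [Real.sqrt_sq (by positivity)]
    rw [hsK, ← div_eq_mul_inv, div_le_iff₀ (by positivity)]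
    have := mul_le_mul_of_nonneg_right hkT hM0.le
    linarith only [this]
  refine final_num hy (T1_pos (P := P) (I := I) (l := l) hP) hV ?_ hgain ?_ hmain
  · refine Real.exp_le_exp.2 ?_
    have : l / 4 * (1 / 2) ≤ l / 4 * ∑ p ∈ P, 1 / (p : ℝ) :=
      mul_le_mul_of_nonneg_left hs2 (by linarith only [hl1])
    linarith only [this, hyl]
  · rw [mul_add]
    linarith only [hKk, hN1]

/-- the set of primes of the resonator -/
lemma PL {C₀ : ℝ} (hC₀ : ∀ x : ℕ, 3 ≤ x →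
    |∑ p ∈ (range (x + 1)).filter Nat.Prime, 1 / (p : ℝ) - Real.log (Real.log x)| ≤ C₀)
    {n B W I : ℕ} {L l : ℝ} (hn100 : 100 ≤ n) (hB1 : 1 ≤ B) (hW : 1 ≤ W)
    (hB : 2 * C₀ + 1 ≤ Real.log B) (hnL : L ≤ n)
    (hlogn : Real.log n ≤ 2 * Real.log L) (h7 : 12 * (W * B) * Real.log L ≤ 1 / 2 * L)
    (hL0 : 100 ≤ L) (hlL : 1 ≤ Real.log L) (hl1 : 1 ≤ l) (hl2 : l ^ 2 ≤ L / 1200)
    (hI : (I : ℝ) ≤ L / (1200 * ((W * B * W : ℕ) : ℝ) * Real.log L)) :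
    ∃ (P : Finset ℕ) (M : ℕ), (∀ p ∈ P, p.Prime) ∧ 1 ≤ M ∧ Real.log M ≤ L / (100 * W) ∧
      (∀ m ∈ MM P I, m ≤ M) ∧ (∀ p ∈ P, (p : ℝ) < Real.exp L) ∧ (∀ p ∈ P, l ^ 2 ≤ p) ∧
      (∀ p ∈ P, 1 + l ≤ (p : ℝ) ^ (1 / (6 * W) : ℝ)) ∧ ∑ p ∈ P, 1 / (p : ℝ) ≤ Real.log B + 2 * C₀ ∧
      1 / 2 ≤ ∑ p ∈ P, 1 / (p : ℝ) := by
  have hB0 : (0 : ℝ) < B := by exact_mod_cast hB1
  have hW0 : (0 : ℝ) < W := by exact_mod_cast hW
  have hn0 : (0 : ℝ) < n := by exact_mod_cast (by omega : 0 < n)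
  obtain ⟨k, hk⟩ : ∃ k, k = n ^ W := ⟨_, rfl⟩
  have hnk : n ≤ k := by
    calc n = n ^ 1 := (pow_one n).symm
      _ ≤ n ^ W := Nat.pow_le_pow_right (by omega) hW
      _ = k := hk.symm
  set Z := k ^ (6 * B) with hZ
  set P := (Ioc (k ^ 6) Z).filter (fun p => p.Prime ∧ ¬ p ∣ 1) with hP'
  have hP : ∀ p ∈ P, p.Prime := fun p hp => (mem_filter.1 hp).2.1
  have hPY : ∀ p ∈ P, k ^ 6 ≤ p := fun p hp => (mem_Ioc.1 (mem_filter.1 hp).1).1.le
  have hPZ : ∀ p ∈ P, p ≤ Z := fun p hp => (mem_Ioc.1 (mem_filter.1 hp).1).2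
  have hZ1 : 1 ≤ Z := Nat.one_le_pow _ _ (by omega)
  have hlogZ : Real.log Z = 6 * B * (W * Real.log n) := by
    rw [hZ, hk]
    push_cast
    rw [Real.log_pow, Real.log_pow]
    push_cast
    ring
  have hlogZ' : Real.log Z ≤ 12 * (W * B) * Real.log L := by
    rw [hlogZ]
    have h1 : (6 : ℝ) * B * (W * Real.log n) ≤ 6 * B * (W * (2 * Real.log L)) :=
      mul_le_mul_of_nonneg_left (mul_le_mul_of_nonneg_left hlogn hW0.le) (by positivity)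
    linarith
  obtain ⟨hsum1, hsum2⟩ := primes_sum hC₀ (n := k) (B := B) (E := 1) (by omega) hB1 one_pos
  rw [← hZ, ← hP'] at hsum1 hsum2
  have hln : 1 + l ≤ n := by nlinarith
  refine ⟨P, Z ^ I, hP, Nat.one_le_pow _ _ (by omega), ?_, fun m hm => MM_le hP hPZ hZ1 hm, ?_, ?_, ?_,
    hsum1, ?_⟩
  · push_cast
    rw [Real.log_pow, hlogZ]
    push_cast at hI
    calc (I : ℝ) * (6 * B * (W * Real.log n)) ≤
          L / (1200 * (W * B * W) * Real.log L) * (6 * B * (W * (2 * Real.log L))) :=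
          mul_le_mul hI (mul_le_mul_of_nonneg_left (mul_le_mul_of_nonneg_left hlogn hW0.le) (by positivity))
            (by positivity) (by positivity)
      _ = L / (100 * W) := by
          have : Real.log L ≠ 0 := by linarith
          field_simp
          ring
  · intro p hp
    have h1 : (p : ℝ) ≤ Z := by exact_mod_cast hPZ p hp
    refine lt_of_le_of_lt h1 ?_
    rw [← Real.log_lt_iff_lt_exp (by exact_mod_cast hZ1)]
    linarith
  · intro p hp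
    have h1 : n ≤ p := by
      calc n ≤ k := hnk
        _ = k ^ 1 := (pow_one k).symm
        _ ≤ k ^ 6 := Nat.pow_le_pow_right (by omega) (by norm_num)
        _ ≤ p := hPY p hp
    have h2 : (n : ℝ) ≤ p := by exact_mod_cast h1
    linarith
  · intro p hp
    have h1 : ((n : ℝ)) ^ (6 * W : ℕ) ≤ p := by
      have h2 := hPY p hp
      rw [hk, ← pow_mul, mul_comm] at h2
      exact_mod_cast h2
    have h2 : ((n : ℝ) ^ (6 * W : ℕ)) ^ (1 / (6 * W) : ℝ) = n := by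
      rw [← Real.rpow_natCast, ← Real.rpow_mul hn0.le]
      push_cast
      rw [mul_one_div_cancel (by positivity), Real.rpow_one]
    calc 1 + l ≤ n := hln
      _ = ((n : ℝ) ^ (6 * W : ℕ)) ^ (1 / (6 * W) : ℝ) := h2.symm
      _ ≤ (p : ℝ) ^ (1 / (6 * W) : ℝ) := Real.rpow_le_rpow (by positivity) h1 (by positivity)
  · have h1 : Real.log ((1 : ℕ) : ℝ) = 0 := by simp
    rw [h1, mul_zero, zero_div] at hsum2
    linarith

/-- the size of the exceptional set -/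
lemma exc_num {ε L : ℝ} {T M W : ℕ} (hε : 0 < ε) (hε3 : ε < 1 / 3) (hL : 20 ≤ ε * L) (hT1 : 1 ≤ T)
    (hM1 : 1 ≤ M) (hT : Real.log T ≤ (1 / 3 - ε) * L + 1) (hM : Real.log M ≤ L / (100 * W))
    (hW : 1 / ε ≤ W) :
    256 * (T : ℝ) ^ 2 * ((((16 * T * M) ^ 2 * M : ℕ) : ℝ) * M) ^ (1 / (6 * W) : ℝ) *
      √((((16 * T * M) ^ 2 * M : ℕ) : ℝ) * M) ≤ Real.exp ((1 - 2 * ε) * L) := by
  have hT0 : (0 : ℝ) < T := by exact_mod_cast hT1
  have hM0 : (0 : ℝ) < M := by exact_mod_cast hM1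
  have hW0 : (0 : ℝ) < W := lt_of_lt_of_le (by positivity) hW
  have hL0 : 0 < L := by
    by_contra hcon
    have : ε * L ≤ 0 := mul_nonpos_of_nonneg_of_nonpos hε.le (not_lt.1 hcon)
    linarith
  obtain ⟨Y, hY⟩ : ∃ Y : ℝ, Y = 16 * T * M ^ 2 := ⟨_, rfl⟩
  have hY0 : 0 < Y := by rw [hY]; positivity
  have e1 : (((16 * T * M) ^ 2 * M : ℕ) : ℝ) * M = Y ^ 2 := by
    rw [hY]
    push_cast
    ring
  rw [e1, Real.sqrt_sq hY0.le]
  have hlY : Real.log Y = Real.log 16 + Real.log T + 2 * Real.log M := by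
    rw [hY, Real.log_mul (by positivity) (by positivity), Real.log_mul (by norm_num) (by positivity),
      Real.log_pow]
    push_cast
    ring
  have hε1 : (1 : ℝ) / W ≤ ε := by
    rw [div_le_iff₀ hW0]
    rw [div_le_iff₀ hε] at hW
    linarith
  have hM' : Real.log M ≤ ε * L / 100 := by
    refine hM.trans (le_trans (le_of_eq ?_) (div_le_div_of_nonneg_right
      (mul_le_mul_of_nonneg_right hε1 hL0.le) (by norm_num)))
    field_simp
  have h16 := log16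
  have hlY1 : Real.log Y ≤ 4 + (1 / 3 - ε) * L + ε * L / 50 := by
    rw [hlY]
    linarith
  have hlY2 : Real.log Y ≤ L := by
    have : ε * L < 1 / 3 * L := mul_lt_mul_of_pos_right hε3 hL0
    linarith
  have hlY0 : 0 ≤ Real.log Y := by
    rw [hlY]
    have := Real.log_nonneg (show (1 : ℝ) ≤ 16 by norm_num)
    have := Real.log_nonneg (show (1 : ℝ) ≤ T by exact_mod_cast hT1)
    have := Real.log_nonneg (show (1 : ℝ) ≤ M by exact_mod_cast hM1)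
    linarith
  rw [← Real.log_le_iff_le_exp (by positivity), Real.log_mul (by positivity) (by positivity),
    Real.log_mul (by positivity) (by positivity), Real.log_mul (by positivity) (by positivity),
    Real.log_rpow (by positivity), Real.log_pow, Real.log_pow]
  push_cast
  have h5 : 1 / (6 * (W : ℝ)) * (2 * Real.log Y) ≤ ε / 3 * L := by
    have h6 : 1 / (6 * (W : ℝ)) * 2 = 1 / W / 3 := by
      field_simp
      norm_num
    rw [← mul_assoc, h6]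
    exact mul_le_mul (by linarith) hlY2 hlY0 (by positivity)
  have h256 : Real.log 256 ≤ 6 := by
    rw [show (256 : ℝ) = 16 ^ 2 by norm_num, Real.log_pow]
    push_cast
    linarith
  nlinarith

/-- **Large central values in every coset, for almost all primes.** -/
theorem almost_all {ε : ℝ} (hε : 0 < ε) (hε3 : ε < 1 / 3) : ∃ c : ℝ, 0 < c ∧ ∃ Q₀ : ℕ, ∀ Q : ℕ, Q₀ ≤ Q →
    ∃ 𝓔 : Finset ℕ, (#𝓔 : ℝ) ≤ (Q : ℝ) ^ (1 - 2 * ε) ∧
    ∀ (q : ℕ) [NeZero q], q.Prime → Q ≤ q → q ≤ 2 * Q → q ∉ 𝓔 →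
      ∀ H : Subgroup (DirichletCharacter ℂ q), (H.index : ℝ) ≤ (q : ℝ) ^ (1 / 3 - ε) →
        ∀ ψ : DirichletCharacter ℂ q, ∃ χ : DirichletCharacter ℂ q, ψ⁻¹ * χ ∈ H ∧ χ ≠ 1 ∧
          Real.exp (c * √(Real.log q / Real.log (Real.log q))) ≤ ‖χ.LFunction (1 / 2)‖ := by
  classical
  obtain ⟨C₀, hC₀0, hC₀⟩ := Pool.Agent.Q28.BP.sum_inv_loglog
  obtain ⟨B, hB1, hB⟩ : ∃ B : ℕ, 1 ≤ B ∧ 2 * C₀ + 1 ≤ Real.log B := by
    refine ⟨⌈Real.exp (2 * C₀ + 1)⌉₊, ?_, ?_⟩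
    · exact Nat.ceil_pos.2 (Real.exp_pos _)
    · rw [Real.le_log_iff_exp_le (by exact_mod_cast Nat.ceil_pos.2 (Real.exp_pos _))]
      exact Nat.le_ceil _
  have hB0 : (0 : ℝ) < B := by exact_mod_cast hB1
  obtain ⟨W, hWε⟩ : ∃ W : ℕ, 1 / ε ≤ W := ⟨⌈1 / ε⌉₊, Nat.le_ceil _⟩
  have hW0 : (0 : ℝ) < W := lt_of_lt_of_le (by positivity) hWε
  have hW1 : 1 ≤ W := by exact_mod_cast hW0
  obtain ⟨s₁, hs₁⟩ : ∃ s₁ : ℝ, s₁ = Real.log B + 2 * C₀ := ⟨_, rfl⟩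
  have hs₁1 : 1 ≤ s₁ := by linarith only [hs₁, hB, hC₀0]
  have hB'1 : 1 ≤ W * B * W := Nat.mul_pos (Nat.mul_pos hW1 hB1) hW1
  have hB'0 : (0 : ℝ) < ((W * B * W : ℕ) : ℝ) := by exact_mod_cast hB'1
  obtain ⟨c₁, hc₁⟩ : ∃ c₁ : ℝ, c₁ = √(1 / (19200 * ((W * B * W : ℕ) : ℝ) * s₁)) := ⟨_, rfl⟩
  have hc₁0 : 0 < c₁ := by
    rw [hc₁]
    exact Real.sqrt_pos.2 (by positivity)
  obtain ⟨L₀, hL₀⟩ := eventually_atTop.1 (((ev_log (2400 * ((W * B * W : ℕ) : ℝ) * (8 * s₁ + 4)) 0 one_pos).and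
    (ev_log ((64 / c₁) ^ 2) 0 one_pos)).and (((ev_log (12 * (W * B)) 0 (show (0 : ℝ) < 1 / 2 by norm_num)).and
    (eventually_ge_atTop 100)).and ((eventually_ge_atTop (20 / ε)).and
    (ev_sqrt 2 7 (show (0 : ℝ) < 14 / 100 by norm_num)))))
  refine ⟨c₁ / 64, by positivity, ⌈Real.exp L₀⌉₊, fun Q hQQ => ?_⟩
  have hQ0 : (0 : ℝ) < Q := lt_of_lt_of_le (Real.exp_pos L₀) ((Nat.le_ceil _).trans (by exact_mod_cast hQQ))
  have hLL : L₀ ≤ Real.log Q := by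
    rw [Real.le_log_iff_exp_le hQ0]
    exact (Nat.le_ceil _).trans (by exact_mod_cast hQQ)
  obtain ⟨L, hLdef⟩ : ∃ L, L = Real.log Q := ⟨_, rfl⟩
  rw [← hLdef] at hLL
  obtain ⟨⟨hE1, hE2⟩, ⟨hE3, hE4⟩, hE5, hE6⟩ := hL₀ _ hLL
  rw [add_zero] at hE1 hE2 hE3
  rw [one_mul] at hE1 hE2
  have hL0 : 0 < L := by linarith only [hE4]
  have hlL1 : 1 ≤ Real.log L := by
    rw [Real.le_log_iff_exp_le hL0]
    have := Real.exp_one_lt_d9
    linarith only [this, hE4]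
  have hεL : 20 ≤ ε * L := by
    rw [div_le_iff₀ hε] at hE5
    linarith only [hE5]
  have hQ2 : 2 ≤ Q := by
    have h1 : (1 : ℝ) < Q := by
      have := (Real.log_pos_iff hQ0.le).1 (hLdef ▸ hL0)
      exact this
    exact_mod_cast h1
  -- the parameters
  obtain ⟨n, hnL, hn2L, hn100, hlogn0, hlogn⟩ := NL hE4
  obtain ⟨I, l, hI4, hIy, hl1, hlI, hlI2, hlQ⟩ := IL hB'1 hs₁1 hE4 hlL1 hE1
  rw [← hc₁] at hlQ
  obtain ⟨P, M, hP, hM1, hlogM, hMM, hPL, hlp, hlP, hsum1, hs2⟩ := PL hC₀ (I := I) hn100 hB1 hW1 hB hnL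
    hlogn hE3 hE4 hlL1 hl1 hlI hIy
  rw [← hs₁] at hsum1
  have hα0 : 0 < 1 / 3 - ε := by linarith only [hε3]
  obtain ⟨T, hTdef⟩ : ∃ T : ℕ, T = ⌊((2 : ℝ) * Q) ^ (1 / 3 - ε)⌋₊ := ⟨_, rfl⟩
  have h2Q1 : 1 ≤ (2 : ℝ) * Q := by
    have : (2 : ℝ) ≤ Q := by exact_mod_cast hQ2
    linarith only [this]
  have hT1 : 1 ≤ T := by
    rw [hTdef]
    refine Nat.le_floor ?_
    push_cast
    exact Real.one_le_rpow h2Q1 hα0.le
  have hT0 : (0 : ℝ) < T := by exact_mod_cast hT1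
  have hM0 : (0 : ℝ) < M := by exact_mod_cast hM1
  have hlogT : Real.log T ≤ (1 / 3 - ε) * L + 1 := by
    have h1 : (T : ℝ) ≤ ((2 : ℝ) * Q) ^ (1 / 3 - ε) := by
      rw [hTdef]
      exact Nat.floor_le (by positivity)
    have h2 := Real.log_le_log hT0 h1
    rw [Real.log_rpow (by positivity), Real.log_mul (by norm_num) hQ0.ne', ← hLdef] at h2
    have h3 := Real.log_two_lt_d9
    have h4 : (1 / 3 - ε) * (Real.log 2 + L) ≤ (1 / 3 - ε) * L + 1 := by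
      have : (1 / 3 - ε) * Real.log 2 ≤ 1 * Real.log 2 :=
        mul_le_mul_of_nonneg_right (by linarith only [hε]) (Real.log_nonneg (by norm_num))
      linarith only [this, h3]
    linarith only [h2, h4]
  have hlogM' : Real.log M ≤ L / 100 := by
    refine hlogM.trans (div_le_div_of_nonneg_left hL0.le (by norm_num) ?_)
    have : (1 : ℝ) ≤ W := by exact_mod_cast hW1
    linarith only [this]
  have hlogT' : Real.log T ≤ 1 / 3 * L + 1 := by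
    have := mul_pos hε hL0
    linarith only [this, hlogT]
  have h16 := log16
  have hlogK : Real.log (((16 * T * M) ^ 2 : ℕ) : ℝ) ≤ 8 + 7 / 10 * L := by
    push_cast
    rw [Real.log_pow, Real.log_mul (by positivity) (by positivity), Real.log_mul (by norm_num) (by positivity)]
    push_cast
    linarith only [h16, hlogT', hlogM', hL0]
  have hTM1 : 1 ≤ (16 * T * M) ^ 2 := Nat.one_le_pow _ _ (Nat.mul_pos (by omega) hM1)
  have hX : (16 * T * M) ^ 2 * M ≤ Q ^ 4 := by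
    refine (nat_lt_of_log (Nat.mul_pos hTM1 hM1) (Nat.pow_pos (by omega)) ?_).le
    push_cast
    have h1 : Real.log (((16 : ℝ) * T * M) ^ 2 * M) = Real.log (((16 * T * M) ^ 2 : ℕ) : ℝ) + Real.log M := by
      push_cast
      rw [Real.log_mul (by positivity) (by positivity)]
    rw [h1, Real.log_pow, ← hLdef]
    have hlogK2 := hlogK
    push_cast at hlogK2 ⊢
    linarith only [hlogK2, hlogM', hE4]
  have hMQ : M ≤ Q ^ 4 := by
    refine le_trans ?_ hX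
    exact Nat.le_mul_of_pos_left _ hTM1
  obtain ⟨𝒬, h𝒬⟩ : ∃ 𝒬 : Finset ℕ, ∀ q, q ∈ 𝒬 ↔ (Q ≤ q ∧ q ≤ 2 * Q) ∧ q.Prime :=
    ⟨(Icc Q (2 * Q)).filter Nat.Prime, fun q => by rw [mem_filter, mem_Icc]⟩
  obtain ⟨𝓔, hE, hgood⟩ := exc (T := T) (X := (16 * T * M) ^ 2 * M) (M := M) (𝒬 := 𝒬) hQ2
    (fun q hq => ⟨((h𝒬 q).1 hq).2, ((h𝒬 q).1 hq).1.1⟩)
    (show (0 : ℝ) ≤ 1 / (6 * W) by positivity) hX hMQ
  refine ⟨𝓔, ?_, fun q _ hq hq1 hq2 hqE H hH ψ => ?_⟩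
  · refine (hE.trans (exc_num hε hε3 hεL hT1 hM1 hlogT hlogM hWε)).trans (le_of_eq ?_)
    rw [Real.rpow_def_of_pos hQ0, ← hLdef, mul_comm]
  · have hSS := hgood q ((h𝒬 q).2 ⟨⟨hq1, hq2⟩, hq⟩) hqE
    have hq0 : (0 : ℝ) < q := by exact_mod_cast hq.pos
    have hq1' : (Q : ℝ) ≤ q := by exact_mod_cast hq1
    have hq2' : (q : ℝ) ≤ 2 * Q := by exact_mod_cast hq2
    obtain ⟨Lq, hLq⟩ : ∃ Lq, Lq = Real.log q := ⟨_, rfl⟩
    have hLLq : L ≤ Lq := by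
      rw [hLdef, hLq]
      exact Real.log_le_log hQ0 hq1'
    have hLq2 : Lq ≤ 2 * L := by
      rw [hLq]
      refine (Real.log_le_log hq0 hq2').trans ?_
      rw [Real.log_mul (by norm_num) hQ0.ne', ← hLdef]
      have := Real.log_two_lt_d9
      linarith only [this, hE4]
    obtain ⟨-, -, -, hF6⟩ := hL₀ _ (hLL.trans hLLq)
    have hLq0 : 0 < Lq := by linarith only [hL0, hLLq]
    have hlLq : Real.log L ≤ Real.log Lq := Real.log_le_log hL0 hLLq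
    obtain ⟨R, hR⟩ : ∃ R, R = √(L / Real.log L) := ⟨_, rfl⟩
    have hR0 : 0 ≤ R := by rw [hR]; exact Real.sqrt_nonneg _
    have hRbig : 64 / c₁ ≤ R := by
      rw [hR]
      refine Real.le_sqrt_of_sq_le ?_
      rw [le_div_iff₀ (by linarith only [hlL1])]
      exact hE2
    rw [← hR] at hlQ
    have hRq : √(Lq / Real.log Lq) ≤ 2 * R := by
      rw [hR, show (2 : ℝ) * √(L / Real.log L) = √(2 ^ 2 * (L / Real.log L)) by
        rw [Real.sqrt_mul (by norm_num), Real.sqrt_sq (by norm_num)]]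
      refine Real.sqrt_le_sqrt ?_
      have h1 : Lq / Real.log Lq ≤ 2 * L / Real.log L :=
        div_le_div₀ (by linarith only [hL0]) hLq2 (by linarith only [hlL1]) hlLq
      have h2 : 0 ≤ L / Real.log L := div_nonneg hL0.le (by linarith only [hlL1])
      have h3 : 2 * L / Real.log L = 2 * (L / Real.log L) := by ring
      linarith only [h1, h2, h3]
    have hT : H.index ≤ T := by
      rw [hTdef]
      refine Nat.le_floor (hH.trans ?_)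
      exact Real.rpow_le_rpow hq0.le hq2' hα0.le
    have hqne : q ≠ 2 := by
      rintro rfl
      have h1 := Real.log_two_lt_d9
      push_cast at hLq
      linarith only [h1, hLq, hLLq, hE4]
    have hKq : (16 * T * M) ^ 2 ≤ q := by
      refine (nat_lt_of_log hTM1 hq.pos ?_).le
      rw [← hLq]
      linarith only [hlogK, hLLq, hE4]
    have hRc : 64 ≤ c₁ * R := by
      rw [div_le_iff₀ hc₁0] at hRbig
      linarith only [hRbig]
    rw [← hLq]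
    refine good_one (x := 1 / 3 * L + 1) (y := c₁ * R / 32) hq hqne (show (0 : ℝ) ≤ 1 / (6 * W) by positivity)
      hSS hT1 hM1 hP ?_ hMM hlp hlP hsum1 hs2 hl1 hlI2 hI4 ?_ ?_ hKq hlogT' ?_ ?_ (Real.exp_pos _).le ?_ ?_
      H hT ψ
    · intro p hp
      have h1 := hPL p hp
      rw [hLdef, Real.exp_log hQ0] at h1
      have h2 : p < Q := by exact_mod_cast h1
      omega
    · rw [← hLq]
      linarith only [hlogM', hLLq]
    · rw [← hLq]
      linarith only [hLLq, hE4]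
    · rw [← hLq]
      linarith only [hF6, hLLq, hLq0]
    · linarith only [hRc]
    · refine Real.exp_le_exp.2 ?_
      have h1 : c₁ / 64 * √(Lq / Real.log Lq) ≤ c₁ / 64 * (2 * R) :=
        mul_le_mul_of_nonneg_left hRq (by positivity)
      have h2 : 0 ≤ c₁ * R := mul_nonneg hc₁0.le hR0
      linarith only [h1, h2]
    · linarith only [hlQ]

end Pool.Agent.Q28.CT
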