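import Pool.Agent.Q28.CS.Cost
import Pool.Agent.Q28.CS.Par

/-!
# Weighted sums over squarefree numbers with few prime factors: any exponent
-/

set_option autoImplicit false
set_option linter.unusedSectionVars false

namespace Pool.Agent.Q28.CT

open Finset Pool.Agent.Q28.CS

variable {P : Finset ℕ} {I : ℕ} {l : ℝ}

lemma pow_card_le {c η : ℝ} (hη : 0 ≤ η) (hc0 : 0 ≤ c) {a : ℕ} (ha : 0 < a) {Q : Finset ℕ} (hQ : Q ⊆ a.primeFactors)
    (hc : ∀ p ∈ Q, c ≤ (p : ℝ) ^ η) : c ^ #Q ≤ (a : ℝ) ^ η := by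
  calc c ^ #Q = ∏ _p ∈ Q, c := by rw [prod_const]
    _ ≤ ∏ p ∈ Q, (p : ℝ) ^ η := prod_le_prod (fun _ _ => hc0) hc
    _ = ((∏ p ∈ Q, p : ℕ) : ℝ) ^ η := by
        rw [Real.finsetProd_rpow _ _ (fun p _ => Nat.cast_nonneg p)]
        push_cast
        rfl
    _ ≤ (a : ℝ) ^ η := by
        refine Real.rpow_le_rpow (Nat.cast_nonneg _) ?_ hη
        exact_mod_cast prod_le_self ha hQ

/-- the sum over the divisors in the set -/
lemma sum_div_le {η : ℝ} (hη : 0 ≤ η) (hP : ∀ p ∈ P, p.Prime) (hl : 0 ≤ l) (hlP : ∀ p ∈ P, 1 + l ≤ (p : ℝ) ^ η)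
    {a : ℕ} (ha : 0 < a) : ∑ g ∈ (MM P I).filter (fun g => g ∣ a), ww l g ≤ (a : ℝ) ^ η := by
  classical
  set Q := P ∩ a.primeFactors with hQ
  have h1 : ∑ g ∈ (MM P I).filter (fun g => g ∣ a), ww l g ≤ ∑ S ∈ Q.powerset, l ^ #S := by
    have hinj : Set.InjOn (fun g : ℕ => g.primeFactors) ((MM P I).filter (fun g => g ∣ a) : Finset ℕ) := by
      intro g hg g' hg' h
      rw [mem_coe, mem_filter, mem_MM hP] at hg hg'
      replace h : g.primeFactors = g'.primeFactors := h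
      rw [← Nat.prod_primeFactors_of_squarefree hg.1.1, ← Nat.prod_primeFactors_of_squarefree hg'.1.1, h]
    have h2 : ∑ g ∈ (MM P I).filter (fun g => g ∣ a), ww l g =
        ∑ S ∈ ((MM P I).filter (fun g => g ∣ a)).image (fun g : ℕ => g.primeFactors), l ^ #S := by
      rw [sum_image hinj]
      rfl
    rw [h2]
    refine sum_le_sum_of_subset_of_nonneg ?_ fun _ _ _ => pow_nonneg hl _
    intro S hS
    obtain ⟨g, hg, rfl⟩ := mem_image.1 hS
    rw [mem_filter, mem_MM hP] at hg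
    rw [mem_powerset, hQ]
    exact subset_inter hg.1.2.1 (Nat.primeFactors_mono hg.2 ha.ne')
  have h2 : ∑ S ∈ Q.powerset, l ^ #S = (1 + l) ^ #Q := by
    have := Finset.sum_pow_mul_eq_add_pow l 1 Q
    simp only [one_pow, mul_one] at this
    rw [this, add_comm]
  rw [h2] at h1
  exact h1.trans (pow_card_le hη (by linarith) ha inter_subset_right
    fun p hp => hlP p (mem_inter.1 hp).1)

lemma ww_le {η : ℝ} (hη : 0 ≤ η) (hl : 0 ≤ l) (hlP : ∀ p ∈ P, 1 + l ≤ (p : ℝ) ^ η)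
    {b : ℕ} (hb : 0 < b) (hbP : b.primeFactors ⊆ P) : ww l b ≤ (b : ℝ) ^ η :=
  pow_card_le hη hl hb (subset_refl _) fun p hp => by
    have := hlP p (hbP hp)
    linarith

lemma rpow_aux {a b η : ℝ} (ha : 0 < a) (hb : 0 < b) :
    √b / √a * (b ^ η / b * a ^ η) = (a * b) ^ (η - 1 / 2) := by
  have e1 : √b / √a * (b ^ η / b * a ^ η) =
      (b ^ (1 / 2 : ℝ) * b ^ η * b ^ (-1 : ℝ)) * (a ^ (-(1 / 2) : ℝ) * a ^ η) := by
    rw [Real.sqrt_eq_rpow, Real.sqrt_eq_rpow, Real.rpow_neg ha.le, Real.rpow_neg_one]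
    ring
  rw [e1, ← Real.rpow_add hb, ← Real.rpow_add hb, ← Real.rpow_add ha, Real.mul_rpow ha.le hb.le,
    mul_comm]
  congr 1
  · congr 1
    ring
  · congr 1
    ring

/-- shifted main sums -/
lemma shift_le {η : ℝ} (hη : 0 ≤ η) (hP : ∀ p ∈ P, p.Prime) (hl : 0 ≤ l) (hlP : ∀ p ∈ P, 1 + l ≤ (p : ℝ) ^ η)
    {a b : ℕ} (ha : 0 < a) (hb : 0 < b) (hab : a.Coprime b) :
    ∑ v ∈ (MM P I ×ˢ MM P I).filter (fun v => v.2 * b ∣ v.1 * a),
      (√((v.1 * a : ℝ) / (v.2 * b)))⁻¹ * (rr l v.1 * rr l v.2) ≤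
      (a * b : ℝ) ^ (η - 1 / 2) * T0 P I l := by
  classical
  have ha0 : (0 : ℝ) < a := by exact_mod_cast ha
  have hb0 : (0 : ℝ) < b := by exact_mod_cast hb
  -- rewriting of the terms
  have e1 : ∀ v ∈ (MM P I ×ˢ MM P I).filter (fun v => v.2 * b ∣ v.1 * a),
      (√((v.1 * a : ℝ) / (v.2 * b)))⁻¹ * (rr l v.1 * rr l v.2) =
        √b / √a * (ww l v.1 / v.1 * ww l v.2) := by
    intro v hv
    rw [mem_filter, mem_product] at hv
    have h1 : (0 : ℝ) < v.1 := by exact_mod_cast MM_pos hP hv.1.1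
    have h2 : (0 : ℝ) < v.2 := by exact_mod_cast MM_pos hP hv.1.2
    unfold rr
    rw [Real.sqrt_div (by positivity), Real.sqrt_mul h1.le, Real.sqrt_mul h2.le]
    have s1 : (v.1 : ℝ) = √(v.1 : ℝ) * √(v.1 : ℝ) := (Real.mul_self_sqrt h1.le).symm
    have s3 : √(v.1 : ℝ) ≠ 0 := (Real.sqrt_pos.2 h1).ne'
    have s4 : √(v.2 : ℝ) ≠ 0 := (Real.sqrt_pos.2 h2).ne'
    have s5 : √(a : ℝ) ≠ 0 := (Real.sqrt_pos.2 ha0).ne'
    have s6 : √(b : ℝ) ≠ 0 := (Real.sqrt_pos.2 hb0).ne'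
    generalize √(v.1 : ℝ) = x at *
    generalize √(v.2 : ℝ) = y at *
    rw [s1]
    field_simp
  rw [sum_congr rfl e1, ← mul_sum]
  set G : ℝ := ∑ g ∈ (MM P I).filter (fun g => g ∣ a), ww l g with hG
  have hG0 : 0 ≤ G := sum_nonneg fun _ _ => ww_nonneg hl _
  have h3 : ∑ v ∈ (MM P I ×ˢ MM P I).filter (fun v => v.2 * b ∣ v.1 * a), ww l v.1 / v.1 * ww l v.2 ≤
      ∑ m ∈ (MM P I).filter (fun m => b ∣ m), ww l b / b * G * F0 P I l (m / b) := by
    rw [sum_filter, sum_product, sum_filter]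
    refine sum_le_sum fun m hm => ?_
    rw [← sum_filter]
    split_ifs with hbm
    · obtain ⟨m', rfl⟩ := hbm
      have hm' := (mem_MM hP).1 hm
      rw [Nat.squarefree_mul_iff] at hm'
      have hcop : b.Coprime m' := hm'.1.1
      have hm0 : m' ≠ 0 := fun h => by
        have := MM_pos hP hm
        simp [h] at this
      have hm0' : (m' : ℝ) ≠ 0 := by exact_mod_cast hm0
      rw [Nat.mul_div_cancel_left _ hb]
      have h4 : ∑ n ∈ (MM P I).filter (fun n => n * b ∣ b * m' * a), ww l (b * m') / ((b * m' : ℕ) : ℝ) * ww l n ≤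
          ww l (b * m') / ((b * m' : ℕ) : ℝ) * (G * ∑ n ∈ (MM P I).filter (fun n => n ∣ m'), ww l n) := by
        rw [← mul_sum]
        refine mul_le_mul_of_nonneg_left ?_ (div_nonneg (ww_nonneg hl _) (Nat.cast_nonneg _))
        have h5 := sum_mul_le (a := a) hP hl (MM_dvd hP hm (Dvd.intro_left b rfl))
        refine le_trans (le_of_eq ?_) h5
        refine sum_congr (filter_congr fun n _ => ?_) fun _ _ => rfl
        rw [mul_comm n b, mul_assoc b m' a]
        exact Nat.mul_dvd_mul_iff_left hb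
      refine h4.trans (le_of_eq ?_)
      unfold F0
      rw [ww_mul hcop]
      push_cast
      field_simp
    · have : (MM P I).filter (fun n => n * b ∣ m * a) = ∅ := by
        rw [filter_eq_empty_iff]
        intro n _ hd
        exact hbm (hab.symm.dvd_of_dvd_mul_right ((Dvd.intro_left n rfl).trans hd))
      rw [this, sum_empty]
  have h4 : ∑ m ∈ (MM P I).filter (fun m => b ∣ m), F0 P I l (m / b) ≤ T0 P I l := by
    have hinj : Set.InjOn (fun m : ℕ => m / b) ((MM P I).filter (fun m => b ∣ m) : Finset ℕ) := by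
      intro m hm m' hm' h
      rw [mem_coe, mem_filter] at hm hm'
      replace h : m / b = m' / b := h
      rw [← Nat.div_mul_cancel hm.2, h, Nat.div_mul_cancel hm'.2]
    rw [← sum_image (f := fun m => F0 P I l m) hinj]
    refine sum_le_sum_of_subset_of_nonneg ?_ fun m _ _ => F0_nonneg hl m
    intro m hm
    obtain ⟨n, hn, rfl⟩ := mem_image.1 hm
    rw [mem_filter] at hn
    exact MM_dvd hP hn.1 (Nat.div_dvd_of_dvd hn.2)
  rcases ((MM P I).filter (fun m => b ∣ m)).eq_empty_or_nonempty with he | ⟨m, hm⟩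
  · rw [he, sum_empty] at h3
    refine (mul_le_mul_of_nonneg_left h3 (by positivity)).trans ?_
    rw [mul_zero]
    exact mul_nonneg (by positivity) (T0_nonneg hl)
  · rw [mem_filter] at hm
    have hbM := (mem_MM hP).1 (MM_dvd hP hm.1 hm.2)
    have k1 := ww_le hη hl hlP hb hbM.2.1
    have k2 := sum_div_le (I := I) hη hP hl hlP ha
    rw [← mul_sum] at h3
    calc √b / √a * ∑ v ∈ (MM P I ×ˢ MM P I).filter (fun v => v.2 * b ∣ v.1 * a),
          ww l v.1 / v.1 * ww l v.2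
        ≤ √b / √a * (ww l b / b * G * T0 P I l) := by
          refine mul_le_mul_of_nonneg_left (h3.trans ?_) (by positivity)
          exact mul_le_mul_of_nonneg_left h4 (mul_nonneg (div_nonneg (ww_nonneg hl _) hb0.le) hG0)
      _ = √b / √a * (ww l b / b * G) * T0 P I l := by ring
      _ ≤ √b / √a * ((b : ℝ) ^ η / b * (a : ℝ) ^ η) * T0 P I l := by
          refine mul_le_mul_of_nonneg_right ?_ (T0_nonneg hl)
          refine mul_le_mul_of_nonneg_left ?_ (by positivity)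
          exact mul_le_mul (div_le_div_of_nonneg_right k1 hb0.le) k2 hG0 (by positivity)
      _ = _ := by rw [rpow_aux ha0 hb0]

/-- shifted sums of squares -/
lemma sq_le {η : ℝ} (hη : 0 ≤ η) (hP : ∀ p ∈ P, p.Prime) (hl : 0 ≤ l) (hlP : ∀ p ∈ P, 1 + l ≤ (p : ℝ) ^ η)
    {a b : ℕ} (ha : 0 < a) (hb : 0 < b) (hab : a.Coprime b) :
    ∑ v ∈ (MM P I ×ˢ MM P I).filter (fun v => v.2 * b = v.1 * a), rr l v.1 * rr l v.2 ≤
      (a * b : ℝ) ^ (η - 1 / 2) * T1 P I l := by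
  classical
  have ha0 : (0 : ℝ) < a := by exact_mod_cast ha
  have hb0 : (0 : ℝ) < b := by exact_mod_cast hb
  set X := (MM P I ×ˢ MM P I).filter (fun v => v.2 * b = v.1 * a) with hX
  have key : ∀ v ∈ X, v.1 / b ∈ MM P I ∧ v.1 = b * (v.1 / b) ∧ v.2 = a * (v.1 / b) ∧
      rr l v.1 * rr l v.2 ≤ (a * b : ℝ) ^ (η - 1 / 2) * (ww l (v.1 / b) ^ 2 / ((v.1 / b : ℕ) : ℝ)) := by
    intro v hv
    rw [hX, mem_filter, mem_product] at hv
    obtain ⟨⟨hv1, hv2⟩, he⟩ := hv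
    have hbd : b ∣ v.1 := hab.symm.dvd_of_dvd_mul_right (Dvd.intro_left v.2 he)
    obtain ⟨m, hm⟩ := hbd
    have hm1 : v.1 / b = m := by rw [hm, Nat.mul_div_cancel_left _ hb]
    have h2 : v.2 = a * m := by
      have : v.2 * b = a * m * b := by rw [he, hm]; ring
      exact Nat.eq_of_mul_eq_mul_right hb this
    have hmM : m ∈ MM P I := MM_dvd hP hv1 (hm ▸ Dvd.intro_left b rfl)
    have hm0 : (0 : ℝ) < m := by exact_mod_cast MM_pos hP hmM
    rw [hm1]
    refine ⟨hmM, hm, h2, ?_⟩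
    have c1 : b.Coprime m := by
      have := ((mem_MM hP).1 hv1).1
      rw [hm, Nat.squarefree_mul_iff] at this
      exact this.1
    have c2 : a.Coprime m := by
      have := ((mem_MM hP).1 hv2).1
      rw [h2, Nat.squarefree_mul_iff] at this
      exact this.1
    have hbM := (mem_MM hP).1 (MM_dvd hP hv1 (hm ▸ Dvd.intro m rfl))
    have haM := (mem_MM hP).1 (MM_dvd hP hv2 (h2 ▸ Dvd.intro m rfl))
    have k1 := ww_le hη hl hlP hb hbM.2.1
    have k2 := ww_le hη hl hlP ha haM.2.1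
    have e1 : rr l v.1 * rr l v.2 = √b / √a * (ww l b / b * ww l a) * (ww l m ^ 2 / m) := by
      unfold rr
      rw [hm, h2, ww_mul c1, ww_mul c2]
      push_cast
      rw [Real.sqrt_mul hb0.le, Real.sqrt_mul ha0.le]
      have s1 : (m : ℝ) = √(m : ℝ) * √(m : ℝ) := (Real.mul_self_sqrt hm0.le).symm
      have s2 : (b : ℝ) = √(b : ℝ) * √(b : ℝ) := (Real.mul_self_sqrt hb0.le).symm
      have s3 : √(m : ℝ) ≠ 0 := (Real.sqrt_pos.2 hm0).ne'
      have s5 : √(a : ℝ) ≠ 0 := (Real.sqrt_pos.2 ha0).ne'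
      have s6 : √(b : ℝ) ≠ 0 := (Real.sqrt_pos.2 hb0).ne'
      generalize √(m : ℝ) = x at *
      generalize √(b : ℝ) = y at *
      rw [s1, s2]
      field_simp
    rw [e1, ← rpow_aux ha0 hb0]
    refine mul_le_mul_of_nonneg_right ?_ (by positivity)
    refine mul_le_mul_of_nonneg_left ?_ (by positivity)
    exact mul_le_mul (div_le_div_of_nonneg_right k1 hb0.le) k2 (ww_nonneg hl _) (by positivity)
  refine (sum_le_sum fun v hv => (key v hv).2.2.2).trans ?_
  rw [← mul_sum]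
  refine mul_le_mul_of_nonneg_left ?_ (by positivity)
  have hinj : Set.InjOn (fun v : ℕ × ℕ => v.1 / b) (X : Finset (ℕ × ℕ)) := by
    intro v hv v' hv' h
    rw [mem_coe] at hv hv'
    obtain ⟨_, a2, a3, _⟩ := key v hv
    obtain ⟨_, b2, b3, _⟩ := key v' hv'
    replace h : v.1 / b = v'.1 / b := h
    rw [h] at a2 a3
    exact Prod.ext (a2.trans b2.symm) (a3.trans b3.symm)
  rw [← sum_image (f := fun m => ww l m ^ 2 / (m : ℝ)) hinj]
  refine sum_le_sum_of_subset_of_nonneg ?_ fun m _ _ => by positivity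
  intro m hm
  obtain ⟨v, hv, rfl⟩ := mem_image.1 hm
  exact (key v hv).1

end Pool.Agent.Q28.CT
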