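import Pool.Agent.Q28.CT.Gen1
import Pool.Agent.Q28.CS.Core2

/-!
# The terms off the diagonal, bounded by the sum over the relations
-/

set_option autoImplicit false
set_option linter.unusedSectionVars false

namespace Pool.Agent.Q28.CT

open Finset ComplexConjugate Pool.Agent.Q28.CS

variable {q : ℕ}

open Classical in
/-- the sum over the relations between different numbers -/
noncomputable def RS (G : Subgroup (ZMod q)ˣ) (A B : ℕ) (η : ℝ) : ℝ :=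
  ∑ v ∈ (Icc 1 A ×ˢ Icc 1 B).filter (fun v => v.1 ≠ v.2 ∧ Rel G v.1 v.2),
    ((v.1 : ℝ) * v.2) ^ (η - 1 / 2)

/-- sums over relations, grouped by the reduced relation -/
lemma fiber_bound (hq : q.Prime) {G : Subgroup (ZMod q)ˣ} {A B : ℕ} {η σ : ℝ}
    (hσ : RS G A B η ≤ σ)
    {ι : Type*} (X : Finset ι) (f : ι → ℝ) (c d : ι → ℕ) {S0 : ℝ} (hS0 : 0 ≤ S0)
    (hf : ∀ x ∈ X, 0 ≤ f x)
    (hX : ∀ x ∈ X, 0 < c x ∧ 0 < d x ∧ c x ≤ A ∧ d x ≤ B ∧ c x ≠ d x ∧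
      (d x).Coprime q ∧ Rel G (c x) (d x))
    (hsum : ∀ a b : ℕ, 0 < a → 0 < b → a.Coprime b →
      ∑ x ∈ X.filter (fun x => c x * b = d x * a), f x ≤ (a * b : ℝ) ^ (η - 1 / 2) * S0) :
    ∑ x ∈ X, f x ≤ σ * S0 := by
  classical
  set φ : ι → ℕ × ℕ := fun x => (c x / (c x).gcd (d x), d x / (c x).gcd (d x)) with hφ
  have key : ∀ v ∈ X.image φ, 0 < v.1 ∧ 0 < v.2 ∧ v.1 ≤ A ∧ v.2 ≤ B ∧ v.1.Coprime v.2 ∧ Rel G v.1 v.2 ∧
      v.1 ≠ v.2 := by
    intro v hv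
    obtain ⟨x, hx, rfl⟩ := mem_image.1 hv
    obtain ⟨h1, h2, h3, h4, h5, h8, h9⟩ := hX x hx
    simp only [hφ]
    set g := (c x).gcd (d x) with hg
    have hg0 : 0 < g := Nat.gcd_pos_of_pos_left _ h1
    obtain ⟨a, ha⟩ : g ∣ c x := Nat.gcd_dvd_left _ _
    obtain ⟨b, hb⟩ : g ∣ d x := Nat.gcd_dvd_right _ _
    have ha' : c x / g = a := by rw [ha, Nat.mul_div_cancel_left _ hg0]
    have hb' : d x / g = b := by rw [hb, Nat.mul_div_cancel_left _ hg0]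
    have hcop : (c x / g).Coprime (d x / g) := Nat.coprime_div_gcd_div_gcd hg0
    rw [ha', hb'] at hcop ⊢
    have ha0 : 0 < a := Nat.pos_of_ne_zero fun h => by
      rw [h, mul_zero] at ha
      omega
    have hb0 : 0 < b := Nat.pos_of_ne_zero fun h => by
      rw [h, mul_zero] at hb
      omega
    have hgq : g.Coprime q := Nat.Coprime.coprime_dvd_left (hb ▸ Dvd.intro b rfl) h8
    have hR : Rel G a b := by
      obtain ⟨u, hu, e⟩ := h9
      refine ⟨u, hu, ?_⟩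
      have hgu : IsUnit ((g : ℕ) : ZMod q) := (ZMod.isUnit_iff_coprime g q).2 hgq
      rw [ha, hb] at e
      push_cast at e
      have e2 : ((g : ℕ) : ZMod q) * ((a : ℕ) : ZMod q) = ((g : ℕ) : ZMod q) * ((u : ZMod q) * ((b : ℕ) : ZMod q)) := by
        rw [e]
        ring
      exact hgu.mul_left_cancel e2
    refine ⟨ha0, hb0, ?_, ?_, hcop, hR, ?_⟩
    · exact (Nat.le_of_dvd h1 (ha ▸ Dvd.intro_left g rfl)).trans h3
    · exact (Nat.le_of_dvd h2 (hb ▸ Dvd.intro_left g rfl)).trans h4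
    · rintro rfl
      exact h5 (ha.trans hb.symm)
  have h1 : ∑ x ∈ X, f x = ∑ v ∈ X.image φ, ∑ x ∈ X.filter (fun x => φ x = v), f x :=
    (sum_fiberwise_of_maps_to (fun x hx => mem_image_of_mem φ hx) f).symm
  rw [h1]
  have h2 : ∀ v ∈ X.image φ, ∑ x ∈ X.filter (fun x => φ x = v), f x ≤
      ((v.1 : ℝ) * v.2) ^ (η - 1 / 2) * S0 := by
    intro v hv
    obtain ⟨k1, k2, _, _, k5, _, k7⟩ := key v hv
    refine (sum_le_sum_of_subset_of_nonneg (t := X.filter (fun x => c x * v.2 = d x * v.1)) ?_ ?_).trans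
      (hsum v.1 v.2 k1 k2 k5)
    · intro x hx
      rw [mem_filter] at hx ⊢
      refine ⟨hx.1, ?_⟩
      rw [← hx.2]
      simp only [hφ]
      have e1 := Nat.div_mul_cancel (Nat.gcd_dvd_left (c x) (d x))
      have e2 := Nat.div_mul_cancel (Nat.gcd_dvd_right (c x) (d x))
      calc c x * (d x / (c x).gcd (d x)) =
          (c x / (c x).gcd (d x) * (c x).gcd (d x)) * (d x / (c x).gcd (d x)) := by rw [e1]
        _ = (d x / (c x).gcd (d x) * (c x).gcd (d x)) * (c x / (c x).gcd (d x)) := by ring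
        _ = _ := by rw [e2]
    · intro x hx _
      exact hf x (mem_filter.1 hx).1
  refine (sum_le_sum h2).trans ?_
  rw [← sum_mul]
  refine mul_le_mul_of_nonneg_right (le_trans ?_ hσ) hS0
  unfold RS
  refine sum_le_sum_of_subset_of_nonneg ?_ fun v _ _ => by positivity
  intro v hv
  obtain ⟨k1, k2, k3, k4, k5, k6, k7⟩ := key v hv
  rw [mem_filter, mem_product, mem_Icc, mem_Icc]
  exact ⟨⟨⟨k1, k3⟩, k2, k4⟩, k7, k6⟩

section

variable {P : Finset ℕ} {I : ℕ} {l : ℝ}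

/-- the relation terms with small `k` -/
lemma off_small (hq : q.Prime) {G : Subgroup (ZMod q)ˣ} {K M : ℕ} {η σ : ℝ}
    (hη : 0 ≤ η) (hσ : RS G (K * M) M η ≤ σ)
    (hP : ∀ p ∈ P, p.Prime) (hl : 0 ≤ l) (hlP : ∀ p ∈ P, 1 + l ≤ (p : ℝ) ^ η)
    (hM : ∀ n ∈ MM P I, n ≤ M ∧ n.Coprime q) (X : Finset (ℕ × ℕ × ℕ))
    (hX : ∀ x ∈ X, 0 < x.1 ∧ x.1 ≤ K ∧ x.2.1 ∈ MM P I ∧ x.2.2 ∈ MM P I ∧
      x.1 * x.2.2 ≠ x.2.1 ∧ Rel G (x.1 * x.2.2) x.2.1) :
    ∑ x ∈ X, (√(x.1 : ℝ))⁻¹ * (rr l x.2.1 * rr l x.2.2) ≤ σ * T0 P I l := by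
  classical
  refine fiber_bound hq hσ X _ (fun x => x.1 * x.2.2) (fun x => x.2.1) (T0_nonneg hl)
    (fun x _ => mul_nonneg (by positivity) (mul_nonneg (rr_nonneg hl _) (rr_nonneg hl _))) ?_ ?_
  · intro x hx
    obtain ⟨h1, h2, h4, h5, h6, h7⟩ := hX x hx
    have p1 := MM_pos hP h4
    have p2 := MM_pos hP h5
    exact ⟨Nat.mul_pos h1 p2, p1, Nat.mul_le_mul h2 (hM _ h5).1, (hM _ h4).1, h6, (hM _ h4).2, h7⟩
  · intro a b ha hb hab
    refine le_trans ?_ (shift_le (P := P) (I := I) hη hP hl hlP ha hb hab)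
    set Y := X.filter (fun x => x.1 * x.2.2 * b = x.2.1 * a) with hY
    have hb0 : (0 : ℝ) < b := by exact_mod_cast hb
    have hinj : Set.InjOn (fun x : ℕ × ℕ × ℕ => x.2) (Y : Finset (ℕ × ℕ × ℕ)) := by
      intro x hx y hy h
      rw [mem_coe, hY, mem_filter] at hx hy
      replace h : x.2 = y.2 := h
      have p2 := MM_pos hP (hX y hy.1).2.2.2.1
      have e1 := hx.2
      have e2 := hy.2
      rw [h] at e1
      have e3 : x.1 * (y.2.2 * b) = y.1 * (y.2.2 * b) := by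
        rw [← mul_assoc, ← mul_assoc, e1, e2]
      exact Prod.ext (Nat.eq_of_mul_eq_mul_right (Nat.mul_pos p2 hb) e3) h
    have e4 : ∑ x ∈ Y, (√(x.1 : ℝ))⁻¹ * (rr l x.2.1 * rr l x.2.2) =
        ∑ v ∈ Y.image (fun x => x.2), (√((v.1 * a : ℝ) / (v.2 * b)))⁻¹ * (rr l v.1 * rr l v.2) := by
      rw [sum_image hinj]
      refine sum_congr rfl fun x hx => ?_
      rw [hY, mem_filter] at hx
      have p2 : (0 : ℝ) < x.2.2 := by exact_mod_cast MM_pos hP (hX x hx.1).2.2.2.1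
      have e5 : (x.1 : ℝ) = (x.2.1 * a : ℝ) / (x.2.2 * b) := by
        rw [eq_div_iff (by positivity), ← mul_assoc]
        exact_mod_cast hx.2
      rw [← e5]
    rw [e4]
    refine sum_le_sum_of_subset_of_nonneg ?_ fun v _ _ => mul_nonneg (by positivity)
      (mul_nonneg (rr_nonneg hl _) (rr_nonneg hl _))
    intro v hv
    obtain ⟨x, hx, rfl⟩ := mem_image.1 hv
    rw [hY, mem_filter] at hx
    rw [mem_filter, mem_product]
    obtain ⟨h1, h2, h4, h5, h6, h7⟩ := hX x hx.1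
    refine ⟨⟨h4, h5⟩, Dvd.intro_left x.1 ?_⟩
    rw [← mul_assoc]
    exact hx.2

/-- the relation terms of the mean square -/
lemma off_sq (hq : q.Prime) {G : Subgroup (ZMod q)ˣ} {K M : ℕ} {η σ : ℝ}
    (hη : 0 ≤ η) (hσ : RS G (K * M) M η ≤ σ) (hK : 1 ≤ K)
    (hP : ∀ p ∈ P, p.Prime) (hl : 0 ≤ l) (hlP : ∀ p ∈ P, 1 + l ≤ (p : ℝ) ^ η)
    (hM : ∀ n ∈ MM P I, n ≤ M ∧ n.Coprime q) (X : Finset (ℕ × ℕ))
    (hX : ∀ x ∈ X, x.1 ∈ MM P I ∧ x.2 ∈ MM P I ∧ x.2 ≠ x.1 ∧ Rel G x.2 x.1) :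
    ∑ x ∈ X, rr l x.1 * rr l x.2 ≤ σ * T1 P I l := by
  classical
  refine fiber_bound hq hσ X _ (fun x => x.2) (fun x => x.1) T1_nonneg
    (fun x _ => mul_nonneg (rr_nonneg hl _) (rr_nonneg hl _)) ?_ ?_
  · intro x hx
    obtain ⟨h4, h5, h6, h7⟩ := hX x hx
    refine ⟨MM_pos hP h5, MM_pos hP h4, ?_, (hM _ h4).1, h6, (hM _ h4).2, h7⟩
    calc x.2 ≤ 1 * M := by rw [one_mul]; exact (hM _ h5).1
      _ ≤ K * M := Nat.mul_le_mul_right _ hK
  · intro a b ha hb hab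
    refine le_trans ?_ (sq_le (P := P) (I := I) hη hP hl hlP ha hb hab)
    refine sum_le_sum_of_subset_of_nonneg ?_ fun v _ _ => mul_nonneg (rr_nonneg hl _) (rr_nonneg hl _)
    intro x hx
    rw [mem_filter] at hx
    rw [mem_filter, mem_product]
    obtain ⟨h4, h5, _⟩ := hX x hx.1
    exact ⟨⟨h4, h5⟩, hx.2⟩

end

end Pool.Agent.Q28.CT
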